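import Pool.Agent.Helper97.Fuchs.Defs2

/-!
# Small elements of discrete subgroups of SL(2,ℝ) commute (module FU-M3b)
-/

namespace Pool.Agent.Helper97.Fuchs

open MeasureTheory Matrix UpperHalfPlane Filter Topology
open scoped MatrixGroups ENNReal BigOperators

noncomputable section

lemma sl_ext {a b : SL(2, ℝ)} (h00 : a 0 0 = b 0 0) (h01 : a 0 1 = b 0 1) (h10 : a 1 0 = b 1 0)
    (h11 : a 1 1 = b 1 1) : a = b := by
  apply Matrix.SpecialLinearGroup.ext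
  intro i j
  fin_cases i <;> fin_cases j
  · exact h00
  · exact h01
  · exact h10
  · exact h11

lemma sl_mul_eq_iff {a b c d : SL(2, ℝ)} : a * b = c * d ↔
    (a 0 0 * b 0 0 + a 0 1 * b 1 0 = c 0 0 * d 0 0 + c 0 1 * d 1 0) ∧
    (a 0 0 * b 0 1 + a 0 1 * b 1 1 = c 0 0 * d 0 1 + c 0 1 * d 1 1) ∧
    (a 1 0 * b 0 0 + a 1 1 * b 1 0 = c 1 0 * d 0 0 + c 1 1 * d 1 0) ∧
    (a 1 0 * b 0 1 + a 1 1 * b 1 1 = c 1 0 * d 0 1 + c 1 1 * d 1 1) := by
  constructor
  · intro h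
    refine ⟨?_, ?_, ?_, ?_⟩
    · have := congrArg (fun g : SL(2, ℝ) => g 0 0) h
      simpa only [mul_apply'] using this
    · have := congrArg (fun g : SL(2, ℝ) => g 0 1) h
      simpa only [mul_apply'] using this
    · have := congrArg (fun g : SL(2, ℝ) => g 1 0) h
      simpa only [mul_apply'] using this
    · have := congrArg (fun g : SL(2, ℝ) => g 1 1) h
      simpa only [mul_apply'] using this
  · rintro ⟨h1, h2, h3, h4⟩
    apply sl_ext
    · simpa only [mul_apply'] using h1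
    · simpa only [mul_apply'] using h2
    · simpa only [mul_apply'] using h3
    · simpa only [mul_apply'] using h4

lemma one00 : (1 : SL(2, ℝ)) 0 0 = 1 := rfl
lemma one01 : (1 : SL(2, ℝ)) 0 1 = 0 := rfl
lemma one10 : (1 : SL(2, ℝ)) 1 0 = 0 := rfl
lemma one11 : (1 : SL(2, ℝ)) 1 1 = 1 := rfl

lemma neg_one_ij (i j : Fin 2) : (-1 : SL(2, ℝ)) i j = -((1 : SL(2, ℝ)) i j) := rfl

/-- a non-scalar element has a nonzero traceless part -/
lemma nonscalar {b : SL(2, ℝ)} (hb : b ≠ 1) (hb' : b ≠ -1) :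
    ¬ (b 0 1 = 0 ∧ b 1 0 = 0 ∧ b 0 0 - b 1 1 = 0) := by
  rintro ⟨h1, h2, h3⟩
  have hd := det_eq b
  have h4 : b 1 1 = b 0 0 := by linarith
  rw [h1, h4] at hd
  have h5 : (b 0 0 - 1) * (b 0 0 + 1) = 0 := by nlinarith
  rcases mul_eq_zero.1 h5 with h6 | h6
  · apply hb
    apply sl_ext
    · rw [one00]; linarith
    · rw [one01]; exact h1
    · rw [one10]; exact h2
    · rw [one11]; linarith
  · apply hb'
    apply sl_ext
    · rw [neg_one_ij, one00]; linarith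
    · rw [neg_one_ij, one01, h1]; simp
    · rw [neg_one_ij, one10, h2]; simp
    · rw [neg_one_ij, one11]; linarith

/-- an element commuting with a non-scalar element has proportional traceless part -/
lemma exists_prop {a b : SL(2, ℝ)}
    (hb : ¬ (b 0 1 = 0 ∧ b 1 0 = 0 ∧ b 0 0 - b 1 1 = 0)) (hab : a * b = b * a) :
    ∃ y : ℝ, a 0 1 = y * b 0 1 ∧ a 1 0 = y * b 1 0 ∧ a 0 0 - a 1 1 = y * (b 0 0 - b 1 1) := by
  obtain ⟨e1, e2, e3, e4⟩ := sl_mul_eq_iff.1 hab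
  have f1 : a 0 1 * b 1 0 = b 0 1 * a 1 0 := by linarith
  have f2 : (a 0 0 - a 1 1) * b 0 1 = (b 0 0 - b 1 1) * a 0 1 := by linarith
  have f3 : (a 0 0 - a 1 1) * b 1 0 = (b 0 0 - b 1 1) * a 1 0 := by linarith
  by_cases h1 : b 0 1 = 0
  · by_cases h2 : b 1 0 = 0
    · have h3 : b 0 0 - b 1 1 ≠ 0 := fun h => hb ⟨h1, h2, h⟩
      refine ⟨(a 0 0 - a 1 1) / (b 0 0 - b 1 1), ?_, ?_, ?_⟩
      · rw [h1, mul_zero] at f2
        rw [h1, mul_zero]
        rcases mul_eq_zero.1 f2.symm with h | h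
        · exact absurd h h3
        · exact h
      · rw [h2, mul_zero] at f3
        rw [h2, mul_zero]
        rcases mul_eq_zero.1 f3.symm with h | h
        · exact absurd h h3
        · exact h
      · field_simp
    · refine ⟨a 1 0 / b 1 0, ?_, ?_, ?_⟩
      · field_simp; linarith
      · field_simp
      · field_simp; linarith
  · refine ⟨a 0 1 / b 0 1, ?_, ?_, ?_⟩
    · field_simp
    · field_simp; linarith
    · field_simp; linarith

theorem centralizer_trans (a b c : SL(2, ℝ)) (hb : b ≠ 1) (hb' : b ≠ -1)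
    (hab : a * b = b * a) (hcb : c * b = b * c) : a * c = c * a := by
  have hn := nonscalar hb hb'
  obtain ⟨y, h1, h2, h3⟩ := exists_prop hn hab
  obtain ⟨z, k1, k2, k3⟩ := exists_prop hn hcb
  rw [sl_mul_eq_iff]
  refine ⟨?_, ?_, ?_, ?_⟩
  · linear_combination c 1 0 * h1 + y * b 0 1 * k2 - a 1 0 * k1 - z * b 0 1 * h2
  · linear_combination c 0 1 * h3 + y * (b 0 0 - b 1 1) * k1 - a 0 1 * k3
      - z * (b 0 0 - b 1 1) * h1
  · linear_combination a 1 0 * k3 + z * (b 0 0 - b 1 1) * h2 - c 1 0 * h3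
      - y * (b 0 0 - b 1 1) * k2
  · linear_combination c 0 1 * h2 + y * b 1 0 * k1 - c 1 0 * h1 - y * b 0 1 * k2

/-- the commutator lemma: discreteness kills parabolic traceless parts scaled by conjugation -/
lemma scaled_zero {ε : ℝ} {Γ : Subgroup SL(2, ℝ)} (hd : Disc ε Γ) {c : SL(2, ℝ)} (hc : c ∈ Γ)
    {D p q y : ℝ} (hD : D ^ 2 + p * q = 0) (hy0 : y ≠ 0) (hy1 : |y| < 1)
    (h00 : c 0 0 * D + c 0 1 * q = y * (D * c 0 0 + p * c 1 0))
    (h01 : c 0 0 * p - c 0 1 * D = y * (D * c 0 1 + p * c 1 1))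
    (h10 : c 1 0 * D + c 1 1 * q = y * (q * c 0 0 - D * c 1 0))
    (h11 : c 1 0 * p - c 1 1 * D = y * (q * c 0 1 - D * c 1 1))
    (g0 : SL(2, ℝ)) (hg0 : g0 ∈ Γ) (e00 : g0 0 0 = 1 + D) (e01 : g0 0 1 = p) (e10 : g0 1 0 = q)
    (e11 : g0 1 1 = 1 - D) : D = 0 ∧ p = 0 ∧ q = 0 := by
  have key : ∀ k : ℕ, ∃ g ∈ Γ, g 0 0 = 1 + y ^ k * D ∧ g 0 1 = y ^ k * p ∧ g 1 0 = y ^ k * q ∧
      g 1 1 = 1 - y ^ k * D := by
    intro k
    induction k with
    | zero => exact ⟨g0, hg0, by simpa using e00, by simpa using e01, by simpa using e10,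
        by simpa using e11⟩
    | succ k ih =>
      obtain ⟨g, hg, f00, f01, f10, f11⟩ := ih
      let g' : SL(2, ℝ) := ⟨!![1 + y ^ (k + 1) * D, y ^ (k + 1) * p; y ^ (k + 1) * q,
        1 - y ^ (k + 1) * D], by
          rw [Matrix.det_fin_two]
          simp
          linear_combination (-(y ^ (k + 1)) ^ 2) * hD⟩
      have hg' : c * g = g' * c := by
        rw [sl_mul_eq_iff]
        have a00 : g' 0 0 = 1 + y ^ (k + 1) * D := rfl
        have a01 : g' 0 1 = y ^ (k + 1) * p := rfl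
        have a10 : g' 1 0 = y ^ (k + 1) * q := rfl
        have a11 : g' 1 1 = 1 - y ^ (k + 1) * D := rfl
        rw [a00, a01, a10, a11, f00, f01, f10, f11]
        refine ⟨?_, ?_, ?_, ?_⟩
        · linear_combination y ^ k * h00
        · linear_combination y ^ k * h01
        · linear_combination y ^ k * h10
        · linear_combination y ^ k * h11
      refine ⟨g', ?_, rfl, rfl, rfl, rfl⟩
      have : g' = c * g * c⁻¹ := by rw [hg']; group
      rw [this]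
      exact Γ.mul_mem (Γ.mul_mem hc hg) (Γ.inv_mem hc)
  obtain ⟨hε, hd⟩ := hd
  set B : ℝ := |D| + |p| + |q| + 1 with hB
  have hBpos : 0 < B := by positivity
  obtain ⟨k, hk⟩ := exists_pow_lt_of_lt_one (show 0 < ε / B by positivity) hy1
  obtain ⟨g, hg, f00, f01, f10, f11⟩ := key k
  have hk' : |y| ^ k * B < ε := by rwa [lt_div_iff₀ hBpos] at hk
  have hyk : 0 ≤ |y| ^ k := by positivity
  have bD : |y ^ k * D| < ε := by
    rw [abs_mul, abs_pow]
    have : |D| ≤ B := by rw [hB]; linarith [abs_nonneg p, abs_nonneg q]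
    nlinarith
  have bp : |y ^ k * p| < ε := by
    rw [abs_mul, abs_pow]
    have : |p| ≤ B := by rw [hB]; linarith [abs_nonneg D, abs_nonneg q]
    nlinarith
  have bq : |y ^ k * q| < ε := by
    rw [abs_mul, abs_pow]
    have : |q| ≤ B := by rw [hB]; linarith [abs_nonneg p, abs_nonneg D]
    nlinarith
  have hg1 : g = 1 := by
    apply hd g hg
    intro i j
    fin_cases i <;> fin_cases j
    · show |g 0 0 - 1| < ε
      rw [f00]; simpa using bD
    · show |g 0 1 - 0| < ε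
      rw [f01]; simpa using bp
    · show |g 1 0 - 0| < ε
      rw [f10]; simpa using bq
    · show |g 1 1 - 1| < ε
      rw [f11]
      have : 1 - y ^ k * D - 1 = -(y ^ k * D) := by ring
      rw [this, abs_neg]; exact bD
  have hyk' : y ^ k ≠ 0 := pow_ne_zero _ hy0
  rw [hg1] at f00 f01 f10
  rw [one00] at f00
  rw [one01] at f01
  rw [one10] at f10
  refine ⟨?_, ?_, ?_⟩
  · have : y ^ k * D = 0 := by linarith
    rcases mul_eq_zero.1 this with h | h
    · exact absurd h hyk'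
    · exact h
  · rcases mul_eq_zero.1 f01.symm with h | h
    · exact absurd h hyk'
    · exact h
  · rcases mul_eq_zero.1 f10.symm with h | h
    · exact absurd h hyk'
    · exact h

lemma inv_entries (g : SL(2, ℝ)) : g⁻¹ 0 0 = g 1 1 ∧ g⁻¹ 0 1 = -g 0 1 ∧ g⁻¹ 1 0 = -g 1 0 ∧
    g⁻¹ 1 1 = g 0 0 := by
  have h : (g⁻¹ : SL(2, ℝ)).1 = !![g 1 1, -g 0 1; -g 1 0, g 0 0] := by
    rw [← Matrix.adjugate_fin_two]; rfl
  refine ⟨?_, ?_, ?_, ?_⟩
  · show (g⁻¹ : SL(2, ℝ)).1 0 0 = _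
    rw [h]; rfl
  · show (g⁻¹ : SL(2, ℝ)).1 0 1 = _
    rw [h]; rfl
  · show (g⁻¹ : SL(2, ℝ)).1 1 0 = _
    rw [h]; rfl
  · show (g⁻¹ : SL(2, ℝ)).1 1 1 = _
    rw [h]; rfl

/-- if `a` commutes with its conjugate by `c`, both near `1`, then `a` commutes with `c` -/
lemma commute_of_conj {ε : ℝ} {Γ : Subgroup SL(2, ℝ)} (hd : Disc ε Γ) {a c : SL(2, ℝ)}
    (ha : a ∈ Γ) (hc : c ∈ Γ) (hta : 0 < a 0 0 + a 1 1) (htc : 0 < c 0 0 + c 1 1)
    (h : (c * a * c⁻¹) * a = a * (c * a * c⁻¹)) : c * a = a * c := by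
  by_cases ha1 : a = 1
  · rw [ha1]; simp
  by_cases ha2 : a = -1
  · rw [ha2]; simp
  have hn := nonscalar ha1 ha2
  obtain ⟨y, h1, h2, h3⟩ := exists_prop hn h
  set a' := c * a * c⁻¹ with ha'
  have hca : c * a = a' * c := by rw [ha']; group
  obtain ⟨e1, e2, e3, e4⟩ := sl_mul_eq_iff.1 hca
  -- trace
  have htr : a' 0 0 + a' 1 1 = a 0 0 + a 1 1 := by
    obtain ⟨i1, i2, i3, i4⟩ := inv_entries c
    have hdc := det_eq c
    rw [ha']
    simp only [mul_apply', i1, i2, i3, i4]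
    linear_combination (a 0 0 + a 1 1) * hdc
  have hda := det_eq a
  have hda' := det_eq a'
  set S := (a 0 0 + a 1 1) / 2 with hS
  set D := (a 0 0 - a 1 1) / 2 with hD
  have a00 : a 0 0 = S + D := by rw [hS, hD]; ring
  have a11 : a 1 1 = S - D := by rw [hS, hD]; ring
  have b00 : a' 0 0 = S + y * D := by rw [hS, hD]; linarith
  have b11 : a' 1 1 = S - y * D := by rw [hS, hD]; linarith
  have hSpos : 0 < S := by rw [hS]; linarith
  rw [a00, a11] at hda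
  rw [b00, b11, h1, h2] at hda'
  have hprod : (D ^ 2 + a 0 1 * a 1 0) * ((y - 1) * (y + 1)) = 0 := by linear_combination hda - hda'
  have hn' : ¬ (D = 0 ∧ a 0 1 = 0 ∧ a 1 0 = 0) := by
    rintro ⟨k1, k2, k3⟩
    exact hn ⟨k2, k3, by rw [a00, a11, k1]; ring⟩
  rw [a00, b00, h1] at e1
  rw [b00, h1, a11] at e2
  rw [a00, b11, h2] at e3
  rw [a11, b11, h2] at e4
  have hdc := det_eq c
  rcases mul_eq_zero.1 hprod with hD0 | hy
  · -- parabolic case
    have hy0 : y ≠ 0 := by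
      intro hy0
      apply hn'
      rw [hy0] at e1 e2 e3 e4
      refine ⟨?_, ?_, ?_⟩
      · linear_combination c 1 1 * e1 - c 0 1 * e3 - D * hdc
      · linear_combination c 1 1 * e2 - c 0 1 * e4 - a 0 1 * hdc
      · linear_combination c 0 0 * e3 - c 1 0 * e1 - a 1 0 * hdc
    have hS1 : S = 1 := by nlinarith
    rcases lt_trichotomy |y| 1 with hy1 | hy1 | hy1
    · exfalso
      apply hn'
      refine scaled_zero hd hc (D := D) (p := a 0 1) (q := a 1 0) (y := y) hD0 hy0 hy1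
        ?_ ?_ ?_ ?_ a ha ?_ rfl rfl ?_
      · linear_combination e1
      · linear_combination e2
      · linear_combination e3
      · linear_combination e4
      · rw [a00, hS1]
      · rw [a11, hS1]
    · -- |y| = 1
      rcases (abs_eq (by norm_num : (0:ℝ) ≤ 1)).1 hy1 with hy | hy
      · have : a' = a := by
          apply sl_ext
          · rw [b00, a00, hy]; ring
          · rw [h1, hy]; ring
          · rw [h2, hy]; ring
          · rw [b11, a11, hy]; ring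
        rw [hca, this]
      · exfalso
        apply hn'
        rw [hy] at e1 e2 e3 e4
        have hne : c 0 0 + c 1 1 ≠ 0 := ne_of_gt htc
        refine ⟨?_, ?_, ?_⟩
        · have : D * (c 0 0 + c 1 1) = 0 := by linear_combination (e1 - e4) / 2
          exact (mul_eq_zero.1 this).resolve_right hne
        · have : a 0 1 * (c 0 0 + c 1 1) = 0 := by linear_combination e2
          exact (mul_eq_zero.1 this).resolve_right hne
        · have : a 1 0 * (c 0 0 + c 1 1) = 0 := by linear_combination e3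
          exact (mul_eq_zero.1 this).resolve_right hne
    · -- |y| > 1: use c⁻¹
      exfalso
      apply hn'
      obtain ⟨i1, i2, i3, i4⟩ := inv_entries c
      have hyi : |y⁻¹| < 1 := by rw [abs_inv]; exact inv_lt_one_of_one_lt₀ hy1
      have E1 : c 0 0 * D + c 0 1 * a 1 0 = y * (D * c 0 0 + a 0 1 * c 1 0) := by
        linear_combination e1
      have E2 : c 0 0 * a 0 1 - c 0 1 * D = y * (D * c 0 1 + a 0 1 * c 1 1) := by
        linear_combination e2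
      have E3 : c 1 0 * D + c 1 1 * a 1 0 = y * (a 1 0 * c 0 0 - D * c 1 0) := by
        linear_combination e3
      have E4 : c 1 0 * a 0 1 - c 1 1 * D = y * (a 1 0 * c 0 1 - D * c 1 1) := by
        linear_combination e4
      have F1 : y * (c 1 1 * D - c 0 1 * a 1 0) = D * c 1 1 - a 0 1 * c 1 0 := by
        linear_combination -(c 1 1 * c 1 1) * E1 + c 0 1 * c 1 1 * E3 + c 1 1 * c 1 0 * E2
          - c 0 1 * c 1 0 * E4
          - (y * (c 1 1 * D - c 0 1 * a 1 0) - (D * c 1 1 - a 0 1 * c 1 0)) * hdc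
      have F2 : y * (c 1 1 * a 0 1 + c 0 1 * D) = -D * c 0 1 + a 0 1 * c 0 0 := by
        linear_combination c 1 1 * c 0 1 * E1 - c 0 1 * c 0 1 * E3 - c 1 1 * c 0 0 * E2
          + c 0 1 * c 0 0 * E4
          - (y * (c 1 1 * a 0 1 + c 0 1 * D) - (-D * c 0 1 + a 0 1 * c 0 0)) * hdc
      have F3 : y * (-(c 1 0 * D) + c 0 0 * a 1 0) = a 1 0 * c 1 1 + D * c 1 0 := by
        linear_combination c 1 0 * c 1 1 * E1 - c 0 0 * c 1 1 * E3 - c 1 0 * c 1 0 * E2
          + c 0 0 * c 1 0 * E4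
          - (y * (-(c 1 0 * D) + c 0 0 * a 1 0) - (a 1 0 * c 1 1 + D * c 1 0)) * hdc
      have F4 : y * (-(c 1 0 * a 0 1) - c 0 0 * D) = -(a 1 0 * c 0 1) - D * c 0 0 := by
        linear_combination -(c 1 0 * c 0 1) * E1 + c 0 0 * c 0 1 * E3 + c 1 0 * c 0 0 * E2
          - c 0 0 * c 0 0 * E4
          - (y * (-(c 1 0 * a 0 1) - c 0 0 * D) - (-(a 1 0 * c 0 1) - D * c 0 0)) * hdc
      refine scaled_zero hd (Γ.inv_mem hc) (D := D) (p := a 0 1) (q := a 1 0) (y := y⁻¹) hD0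
        (inv_ne_zero hy0) hyi ?_ ?_ ?_ ?_ a ha ?_ rfl rfl ?_
      · rw [i1, i2, i3, eq_comm, inv_mul_eq_iff_eq_mul₀ hy0]
        linear_combination -F1
      · rw [i1, i2, i4, eq_comm, inv_mul_eq_iff_eq_mul₀ hy0]
        linear_combination -F2
      · rw [i1, i3, i4, eq_comm, inv_mul_eq_iff_eq_mul₀ hy0]
        linear_combination -F3
      · rw [i2, i3, i4, eq_comm, inv_mul_eq_iff_eq_mul₀ hy0]
        linear_combination -F4
      · rw [a00, hS1]
      · rw [a11, hS1]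
  · rcases mul_eq_zero.1 hy with hy | hy
    · have hy : y = 1 := by linarith
      have : a' = a := by
        apply sl_ext
        · rw [b00, a00, hy]; ring
        · rw [h1, hy]; ring
        · rw [h2, hy]; ring
        · rw [b11, a11, hy]; ring
      rw [hca, this]
    · have hy : y = -1 := by linarith
      exfalso
      apply hn'
      rw [hy] at e1 e2 e3 e4
      have hne : c 0 0 + c 1 1 ≠ 0 := ne_of_gt htc
      refine ⟨?_, ?_, ?_⟩
      · have : D * (c 0 0 + c 1 1) = 0 := by linear_combination (e1 - e4) / 2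
        exact (mul_eq_zero.1 this).resolve_right hne
      · have : a 0 1 * (c 0 0 + c 1 1) = 0 := by linear_combination e2
        exact (mul_eq_zero.1 this).resolve_right hne
      · have : a 1 0 * (c 0 0 + c 1 1) = 0 := by linear_combination e3
        exact (mul_eq_zero.1 this).resolve_right hne

/-- Frobenius norm -/
def fr (X : Matrix (Fin 2) (Fin 2) ℝ) : ℝ := √(X 0 0 ^ 2 + X 0 1 ^ 2 + X 1 0 ^ 2 + X 1 1 ^ 2)

lemma fr_nonneg (X : Matrix (Fin 2) (Fin 2) ℝ) : 0 ≤ fr X := Real.sqrt_nonneg _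

lemma fr_sq (X : Matrix (Fin 2) (Fin 2) ℝ) :
    fr X ^ 2 = X 0 0 ^ 2 + X 0 1 ^ 2 + X 1 0 ^ 2 + X 1 1 ^ 2 := Real.sq_sqrt (by positivity)

lemma fr_mul_le (X Y : Matrix (Fin 2) (Fin 2) ℝ) : fr (X * Y) ≤ fr X * fr Y := by
  have hh : fr (X * Y) ^ 2 ≤ (fr X * fr Y) ^ 2 := by
    rw [mul_pow, fr_sq, fr_sq, fr_sq]
    simp only [Matrix.mul_apply, Fin.sum_univ_two]
    nlinarith [sq_nonneg (X 0 0 * Y 1 0 - X 0 1 * Y 0 0), sq_nonneg (X 0 0 * Y 1 1 - X 0 1 * Y 0 1),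
      sq_nonneg (X 1 0 * Y 1 0 - X 1 1 * Y 0 0), sq_nonneg (X 1 0 * Y 1 1 - X 1 1 * Y 0 1)]
  exact le_of_sq_le_sq' hh (by have := fr_nonneg X; have := fr_nonneg Y; positivity)

lemma fr_add_le (X Y : Matrix (Fin 2) (Fin 2) ℝ) : fr (X + Y) ≤ fr X + fr Y := by
  have hX := fr_nonneg X
  have hY := fr_nonneg Y
  have hin : X 0 0 * Y 0 0 + X 0 1 * Y 0 1 + X 1 0 * Y 1 0 + X 1 1 * Y 1 1 ≤ fr X * fr Y := by
    apply le_of_sq_le_sq' _ (by positivity)
    rw [mul_pow, fr_sq, fr_sq]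
    nlinarith [sq_nonneg (X 0 0 * Y 0 1 - X 0 1 * Y 0 0), sq_nonneg (X 0 0 * Y 1 0 - X 1 0 * Y 0 0),
      sq_nonneg (X 0 0 * Y 1 1 - X 1 1 * Y 0 0), sq_nonneg (X 0 1 * Y 1 0 - X 1 0 * Y 0 1),
      sq_nonneg (X 0 1 * Y 1 1 - X 1 1 * Y 0 1), sq_nonneg (X 1 0 * Y 1 1 - X 1 1 * Y 1 0)]
  apply le_of_sq_le_sq' _ (by positivity)
  have e1 := fr_sq X
  have e2 := fr_sq Y
  have e3 := fr_sq (X + Y)
  simp only [Matrix.add_apply] at e3
  nlinarith

lemma fr_neg (X : Matrix (Fin 2) (Fin 2) ℝ) : fr (-X) = fr X := by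
  unfold fr; simp

lemma d1_eq_fr (g : SL(2, ℝ)) : d1 g = fr (g.1 - 1) := by
  unfold d1 fr
  simp

lemma nrm_eq_fr (g : SL(2, ℝ)) : nrm g = fr g.1 := rfl

lemma fr_one : fr 1 ≤ 3 / 2 := by
  unfold fr
  rw [show (3 / 2 : ℝ) = √((3 / 2) ^ 2) from (Real.sqrt_sq (by norm_num)).symm]
  apply Real.sqrt_le_sqrt
  simp
  norm_num

lemma nrm_le_of_d1 (g : SL(2, ℝ)) (h : d1 g ≤ 1 / 2) : nrm g ≤ 2 := by
  rw [nrm_eq_fr]
  have : g.1 = 1 + (g.1 - 1) := by abel
  rw [this]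
  refine (fr_add_le _ _).trans ?_
  rw [← d1_eq_fr]
  linarith [fr_one]

lemma d1_comm_le (a c : SL(2, ℝ)) (ha : d1 a ≤ 1 / 2) (hc : d1 c ≤ 1 / 2) :
    d1 (a * c * a⁻¹ * c⁻¹) ≤ 8 * d1 a * d1 c := by
  have hna := nrm_le_of_d1 a ha
  have hnc := nrm_le_of_d1 c hc
  have e : (a * c * a⁻¹ * c⁻¹ : SL(2, ℝ)).1 - 1 =
      ((a.1 - 1) * (c.1 - 1) + -((c.1 - 1) * (a.1 - 1))) * ((a⁻¹ : SL(2, ℝ)).1 * (c⁻¹ : SL(2, ℝ)).1) := by
    have h1 : (a.1 - 1) * (c.1 - 1) + -((c.1 - 1) * (a.1 - 1)) = a.1 * c.1 - c.1 * a.1 := by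
      noncomm_ring
    have h2 : c.1 * a.1 * ((a⁻¹ : SL(2, ℝ)).1 * (c⁻¹ : SL(2, ℝ)).1) = 1 := by
      have : c * a * (a⁻¹ * c⁻¹) = 1 := by group
      exact congrArg Subtype.val this
    rw [h1, sub_mul, h2]
    congr 1
    show a.1 * c.1 * (a⁻¹ : SL(2, ℝ)).1 * (c⁻¹ : SL(2, ℝ)).1 = _
    noncomm_ring
  rw [d1_eq_fr, e]
  refine (fr_mul_le _ _).trans ?_
  have h1 : fr ((a.1 - 1) * (c.1 - 1) + -((c.1 - 1) * (a.1 - 1))) ≤ 2 * (d1 a * d1 c) := by
    refine (fr_add_le _ _).trans ?_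
    rw [fr_neg]
    have k1 := fr_mul_le (a.1 - 1) (c.1 - 1)
    have k2 := fr_mul_le (c.1 - 1) (a.1 - 1)
    rw [← d1_eq_fr, ← d1_eq_fr] at k1 k2
    linarith
  have h2 : fr ((a⁻¹ : SL(2, ℝ)).1 * (c⁻¹ : SL(2, ℝ)).1) ≤ 4 := by
    refine (fr_mul_le _ _).trans ?_
    rw [← nrm_eq_fr, ← nrm_eq_fr, nrm_inv, nrm_inv]
    have := nrm_nonneg a
    have := nrm_nonneg c
    nlinarith
  have h3 := fr_nonneg ((a.1 - 1) * (c.1 - 1) + -((c.1 - 1) * (a.1 - 1)))
  have h4 := fr_nonneg ((a⁻¹ : SL(2, ℝ)).1 * (c⁻¹ : SL(2, ℝ)).1)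
  have h5 : 0 ≤ d1 a := Real.sqrt_nonneg _
  have h6 : 0 ≤ d1 c := Real.sqrt_nonneg _
  calc _ ≤ (2 * (d1 a * d1 c)) * 4 := by gcongr
    _ = 8 * d1 a * d1 c := by ring

lemma abs_entry_le_d1 (g : SL(2, ℝ)) (i j : Fin 2) : |g i j - (1 : SL(2, ℝ)) i j| ≤ d1 g := by
  unfold d1
  apply Real.le_sqrt_of_sq_le
  rw [sq_abs]
  fin_cases i <;> fin_cases j
  · show (g 0 0 - 1) ^ 2 ≤ _
    nlinarith [sq_nonneg (g 0 1), sq_nonneg (g 1 0), sq_nonneg (g 1 1 - 1)]
  · show (g 0 1 - 0) ^ 2 ≤ _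
    nlinarith [sq_nonneg (g 0 0 - 1), sq_nonneg (g 1 0), sq_nonneg (g 1 1 - 1)]
  · show (g 1 0 - 0) ^ 2 ≤ _
    nlinarith [sq_nonneg (g 0 0 - 1), sq_nonneg (g 0 1), sq_nonneg (g 1 1 - 1)]
  · show (g 1 1 - 1) ^ 2 ≤ _
    nlinarith [sq_nonneg (g 0 0 - 1), sq_nonneg (g 0 1), sq_nonneg (g 1 0)]

lemma tr_pos_of_d1 (g : SL(2, ℝ)) (h : d1 g ≤ 1 / 2) : 0 < g 0 0 + g 1 1 := by
  have h1 := abs_entry_le_d1 g 0 0
  have h2 := abs_entry_le_d1 g 1 1
  rw [one00] at h1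
  rw [one11] at h2
  have := abs_le.1 h1
  have := abs_le.1 h2
  linarith

/-- the iterated commutators -/
def cseq (a b : SL(2, ℝ)) : ℕ → SL(2, ℝ)
  | 0 => b
  | n + 1 => a * cseq a b n * a⁻¹ * (cseq a b n)⁻¹

theorem commute_small : ∃ r₀ : ℝ, 0 < r₀ ∧ ∀ (ε : ℝ) (Γ : Subgroup SL(2, ℝ)), Disc ε Γ →
    ∀ a ∈ Γ, ∀ b ∈ Γ, d1 a < r₀ → d1 b < r₀ → a * b = b * a := by
  refine ⟨1 / 16, by norm_num, ?_⟩
  intro ε Γ hd a ha b hb hda hdb
  have hmem : ∀ n, cseq a b n ∈ Γ := by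
    intro n
    induction n with
    | zero => exact hb
    | succ n ih => exact Γ.mul_mem (Γ.mul_mem (Γ.mul_mem ha ih) (Γ.inv_mem ha)) (Γ.inv_mem ih)
  have hd0 : ∀ g : SL(2, ℝ), 0 ≤ d1 g := fun g => Real.sqrt_nonneg _
  have hsmall : ∀ n, d1 (cseq a b n) ≤ (1 / 2) ^ n * (1 / 16) := by
    intro n
    induction n with
    | zero =>
      show d1 b ≤ _
      simpa using hdb.le
    | succ n ih =>
      have h1 : d1 (cseq a b n) ≤ 1 / 2 := by
        refine ih.trans ?_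
        have : ((1 : ℝ) / 2) ^ n ≤ 1 := pow_le_one₀ (by norm_num) (by norm_num)
        linarith
      have h2 := d1_comm_le a (cseq a b n) (by linarith) h1
      show d1 (a * cseq a b n * a⁻¹ * (cseq a b n)⁻¹) ≤ _
      have h3 := hd0 (cseq a b n)
      have h4 := hd0 a
      rw [pow_succ]
      nlinarith
  have hex : ∃ n, cseq a b n = 1 := by
    obtain ⟨hε, hd'⟩ := hd
    obtain ⟨n, hn⟩ := exists_pow_lt_of_lt_one hε (show (1 / 2 : ℝ) < 1 by norm_num)
    refine ⟨n, hd' _ (hmem n) ?_⟩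
    intro i j
    refine (abs_entry_le_d1 _ i j).trans_lt ?_
    have := hsmall n
    have h2 : (0 : ℝ) < (1 / 2) ^ n := by positivity
    linarith
  classical
  obtain ⟨hj, hmin⟩ := And.intro (Nat.find_spec hex) (fun m => @Nat.find_min _ _ hex m)
  set j := Nat.find hex with hjdef
  have comm_of : ∀ c : SL(2, ℝ), a * c * a⁻¹ * c⁻¹ = 1 → a * c = c * a := by
    intro c h
    have : a * c = (a * c * a⁻¹ * c⁻¹) * (c * a) := by group
    rw [this, h, one_mul]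
  rcases Nat.lt_or_ge j 2 with hj2 | hj2
  · interval_cases hjj : j
    · have : b = 1 := hj
      rw [this]; simp
    · exact comm_of b hj
  · exfalso
    obtain ⟨k, hk⟩ : ∃ k, j = k + 2 := ⟨j - 2, by omega⟩
    have hk1 : cseq a b (k + 1) ≠ 1 := hmin (k + 1) (by omega)
    rw [hk] at hj
    apply hk1
    set c := cseq a b k with hc
    have e1 : cseq a b (k + 1) = a * c * a⁻¹ * c⁻¹ := rfl
    have e2 : a * cseq a b (k + 1) = cseq a b (k + 1) * a := comm_of _ hj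
    have hcd : d1 c ≤ 1 / 2 := by
      refine (hsmall k).trans ?_
      have : ((1 : ℝ) / 2) ^ k ≤ 1 := pow_le_one₀ (by norm_num) (by norm_num)
      linarith
    have h3 : c * a = a * c := by
      apply commute_of_conj hd ha (hmem k) (tr_pos_of_d1 a (by linarith)) (tr_pos_of_d1 c hcd)
      rw [e1] at e2
      -- a commutes with [a,c], hence with c a⁻¹ c⁻¹ and its inverse
      have h4 : Commute a (a * c * a⁻¹ * c⁻¹) := e2
      have h5 : Commute a (a⁻¹ * (a * c * a⁻¹ * c⁻¹)) := (Commute.refl a).inv_right.mul_right h4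
      have h6 : Commute a (a⁻¹ * (a * c * a⁻¹ * c⁻¹))⁻¹ := h5.inv_right
      have h7 : (a⁻¹ * (a * c * a⁻¹ * c⁻¹))⁻¹ = c * a * c⁻¹ := by group
      rw [h7] at h6
      exact h6.symm.eq
    rw [e1, ← h3]
    group

end

end Pool.Agent.Helper97.Fuchs
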